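import Pool.Agent.Lib_helper50.Robin.IE

/-!
# WE: Weyl's lemma
-/

namespace Pool.Agent.Lib_helper50.Robin

open Pool.Agent.Lib_helper13.Robin
open MeasureTheory Set Metric Filter Topology
open scoped RealInnerProductSpace ContDiff

noncomputable section

variable {d : ℕ}

theorem ks_integral {η : E d → ℝ} (he : ∀ z, η (-z) = η z) (h5 : ∫ z, η z = 1) {t : ℝ}
    (ht : 0 < t) : ∫ u, ks η t u = 1 := by
  have h := cv_ks (fun _ : E d => (1 : ℝ)) he ht 0
  simp only [one_mul] at h
  rw [h5] at h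
  rw [← h, cv]
  simp only [one_mul]
  exact (integral_sub_left_eq_self (fun w => ks η t w) volume 0).symm

theorem cv_ae {F η : E d → ℝ} (hF : Integrable F) (h1 : ContDiff ℝ ∞ η)
    (h2 : tsupport η ⊆ closedBall 0 1) (he : ∀ z, η (-z) = η z) (h5 : ∫ z, η z = 1)
    {δ : ℕ → ℝ} (hδ : ∀ n, 0 < δ n) (hδ0 : Tendsto δ atTop (𝓝 0)) :
    ∀ᵐ x, Tendsto (fun n => cv F (ks η (δ n)) x) atTop (𝓝 (F x)) := by
  have hcs : HasCompactSupport η :=
    (isCompact_closedBall (0 : E d) 1).of_isClosed_subset (isClosed_tsupport _) h2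
  obtain ⟨B, hB⟩ := hcs.exists_bound_of_continuous h1.continuous
  have hB0 : 0 ≤ B := (norm_nonneg _).trans (hB 0)
  filter_upwards [(Besicovitch.vitaliFamily (volume : Measure (E d))).ae_tendsto_average_norm_sub
    hF.locallyIntegrable] with x₀ h₀
  have hδ' : Tendsto δ atTop (𝓝[>] 0) :=
    tendsto_nhdsWithin_iff.2 ⟨hδ0, Eventually.of_forall hδ⟩
  have key := (h₀.comp (Besicovitch.tendsto_filterAt volume x₀)).comp hδ'
  have := tendsto_integral_smul_of_tendsto_average_norm_sub
    (g := fun n y => ks η (δ n) (x₀ - y)) (B * (volume : Measure (E d)).real (ball 0 1)) key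
    (Eventually.of_forall fun n => hF.integrableOn) ?_ ?_ ?_
  · refine this.congr fun n => ?_
    rw [cv]
    refine integral_congr_ae (Eventually.of_forall fun w => ?_)
    simp only [smul_eq_mul, mul_comm]
  · refine tendsto_const_nhds.congr fun n => ?_
    rw [integral_sub_left_eq_self (fun w => ks η (δ n) w) volume x₀, ks_integral he h5 (hδ n)]
  · refine Eventually.of_forall fun n y hy => ?_
    change y ∈ closedBall x₀ (δ n)
    rw [mem_closedBall, dist_eq_norm_sub']
    by_contra hn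
    exact hy (ks_zero h2 (hδ n) (not_le.1 hn))
  · refine Eventually.of_forall fun n y => ?_
    change _ ≤ _ / (volume : Measure (E d)).real (closedBall x₀ (δ n))
    rw [Measure.addHaar_real_closedBall _ _ (hδ n).le, finrank_euclideanSpace, Fintype.card_fin]
    have hv : 0 < (volume : Measure (E d)).real (ball 0 1) :=
      ENNReal.toReal_pos (measure_ball_pos volume (0 : E d) one_pos).ne' measure_ball_lt_top.ne
    have hp := pow_pos (hδ n) d
    rw [ks, abs_mul, abs_of_pos (inv_pos.2 hp)]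
    have h3 : |η ((δ n)⁻¹ • (x₀ - y))| ≤ B := hB _
    rw [mul_div_mul_right _ _ hv.ne', div_eq_inv_mul]
    exact mul_le_mul_of_nonneg_left h3 (inv_pos.2 hp).le

theorem cv_comm {F κ κ' : E d → ℝ} (hF : Integrable F) (hκ : Continuous κ)
    (hc : HasCompactSupport κ) (hκ' : Continuous κ') (hc' : HasCompactSupport κ') (x : E d) :
    cv (cv F κ) κ' x = cv (cv F κ') κ x := by
  have hassoc : ∀ {κ κ' : E d → ℝ}, Continuous κ → HasCompactSupport κ → Continuous κ' →
      HasCompactSupport κ' → cv (cv F κ) κ' x = cv F (cv κ κ') x := by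
    intro κ κ' hκ hc hκ' hc'
    simp only [cv_eq]
    have hn : Continuous fun x => ‖κ x‖ := hκ.norm
    have hn' : Continuous fun x => ‖κ' x‖ := hκ'.norm
    refine MeasureTheory.convolution_assoc _ _ _ _ (fun x y z => ?_) hF.1
      hκ.aestronglyMeasurable hκ'.aestronglyMeasurable ?_ ?_ ?_
    · simp [mul_assoc]
    · exact Eventually.of_forall fun y => hc.convolutionExists_right _ hF.locallyIntegrable hκ y
    · exact Eventually.of_forall fun y => hc'.norm.convolutionExists_right _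
        hn.locallyIntegrable hn' y
    · refine HasCompactSupport.convolutionExists_right _ ?_ hF.norm.locallyIntegrable ?_ x
      · exact hc.norm.convolution _ hc'.norm
      · exact hc'.norm.continuous_convolution_right _ hn.locallyIntegrable hn'
  rw [hassoc hκ hc hκ' hc', hassoc hκ' hc' hκ hc]
  congr 1
  funext y
  rw [cv, cv, ← integral_sub_left_eq_self _ volume y]
  refine integral_congr_ae (Eventually.of_forall fun w => ?_)
  simp only [sub_sub_cancel, mul_comm]

theorem pd_tsupport (κ : E d → ℝ) (e : E d) : tsupport (pd e κ) ⊆ tsupport κ := by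
  refine closure_minimal (fun z hz => ?_) (isClosed_tsupport κ)
  refine support_fderiv_subset ℝ ?_
  intro h0
  apply hz
  rw [pd, h0]; rfl

theorem lap_zero_of_notMem {κ : E d → ℝ} {u : E d} (h : u ∉ tsupport κ) : lap κ u = 0 := by
  rw [lap]
  refine Finset.sum_eq_zero fun j _ => ?_
  by_contra hn
  exact h (pd_tsupport κ _ (pd_tsupport _ _ (subset_tsupport _ hn)))

theorem lap_reflect {κ : E d → ℝ} (hκ : ContDiff ℝ ∞ κ) (x w : E d) :
    lap (fun w => κ (x - w)) w = lap κ (x - w) := by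
  have e0 : ∀ g : E d → ℝ, (fun w => g (x - w)) = fun w => g (x + (-1 : ℝ) • w) := by
    intro g; funext w; congr 1; rw [neg_one_smul, sub_eq_add_neg]
  have h1 : ∀ {g : E d → ℝ}, ContDiff ℝ ∞ g → ∀ e w, pd e (fun w => g (x - w)) w =
      -1 * pd e g (x - w) := by
    intro g hg e w
    rw [e0 g, pd_scale e (hg.differentiable (by simp)).differentiableAt]
    congr 2
    rw [neg_one_smul, sub_eq_add_neg]
  rw [lap, lap]
  refine Finset.sum_congr rfl fun j _ => ?_
  have h2 : pd (bv j) (fun w => κ (x - w)) = fun w => -1 * pd (bv j) κ (x - w) :=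
    funext fun w => h1 hκ _ _
  rw [h2, pd_const_mul, h1 (pd_smooth hκ _)]
  ring

theorem cv_integrable {F κ : E d → ℝ} (hF : Integrable F) (hκ : Continuous κ)
    (hc : HasCompactSupport κ) (x : E d) : Integrable fun w => F w * κ (x - w) := by
  have := hc.convolutionExists_right (ContinuousLinearMap.mul ℝ ℝ) hF.locallyIntegrable hκ x
    (μ := volume)
  exact this

theorem cv_lap {F κ : E d → ℝ} (hF : Integrable F) (hκ : ContDiff ℝ ∞ κ)
    (hc : HasCompactSupport κ) (x : E d) :
    lap (cv F κ) x = ∫ w, F w * lap (fun w => κ (x - w)) w := by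
  have e1 : lap (cv F κ) x = ∑ j, cv F (pd (bv j) (pd (bv j) κ)) x := by
    rw [lap]
    refine Finset.sum_congr rfl fun j _ => ?_
    rw [cv_pd hF hκ hc, cv_pd hF (pd_smooth hκ _) (pd_cs hc _)]
  rw [e1]
  simp only [cv]
  rw [← integral_finsetSum _ fun j _ => cv_integrable hF
    (pd_smooth (pd_smooth hκ _) _).continuous (pd_cs (pd_cs hc _) _) x]
  refine integral_congr_ae (Eventually.of_forall fun w => ?_)
  beta_reduce
  rw [lap_reflect hκ, lap, Finset.mul_sum]

theorem cv_lap_zero {f : E d → ℝ} {U : Set (E d)}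
    (h : ∀ φ : E d → ℝ, ContDiff ℝ ∞ φ → HasCompactSupport φ → tsupport φ ⊆ U →
      ∫ x, f x * lap φ x = 0) {x0 : E d} {R : ℝ} (hsub : closedBall x0 R ⊆ U)
    (hf : IntegrableOn f (closedBall x0 R)) {κ : E d → ℝ} (hκ : ContDiff ℝ ∞ κ) {ε : ℝ}
    (hs : tsupport κ ⊆ closedBall 0 ε) {x : E d} (hx : closedBall x ε ⊆ closedBall x0 R) :
    lap (cv ((closedBall x0 R).indicator f) κ) x = 0 := by
  have hc : HasCompactSupport κ :=
    (isCompact_closedBall (0 : E d) ε).of_isClosed_subset (isClosed_tsupport _) hs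
  have hF : Integrable ((closedBall x0 R).indicator f) := by
    rwa [integrable_indicator_iff measurableSet_closedBall]
  rw [cv_lap hF hκ hc]
  have hφ : ContDiff ℝ ∞ fun w => κ (x - w) := hκ.comp (contDiff_const.sub contDiff_id)
  have hts : tsupport (fun w => κ (x - w)) ⊆ closedBall x ε := by
    refine closure_minimal (fun z hz => ?_) isClosed_closedBall
    have := hs (subset_tsupport κ hz)
    rw [mem_closedBall, dist_zero_right] at this
    rwa [mem_closedBall, dist_eq_norm_sub']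
  have hφc : HasCompactSupport fun w => κ (x - w) :=
    (isCompact_closedBall x ε).of_isClosed_subset (isClosed_tsupport _) hts
  rw [← h _ hφ hφc (hts.trans (hx.trans hsub))]
  refine integral_congr_ae (Eventually.of_forall fun w => ?_)
  beta_reduce
  by_cases hw : w ∈ closedBall x0 R
  · rw [indicator_of_mem hw]
  · rw [indicator_of_notMem hw, lap_zero_of_notMem fun h => hw (hx (hts h)), zero_mul, mul_zero]

theorem weyl_local (hd : 0 < d) {f : E d → ℝ} {U : Set (E d)}
    (h : ∀ φ : E d → ℝ, ContDiff ℝ ∞ φ → HasCompactSupport φ → tsupport φ ⊆ U →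
      ∫ x, f x * lap φ x = 0) {x0 : E d} {r : ℝ} (hr : 0 < r) (hsub : closedBall x0 (3 * r) ⊆ U)
    (hf : IntegrableOn f (closedBall x0 (3 * r))) :
    ∃ g : E d → ℝ, ContDiff ℝ ∞ g ∧ (∀ x ∈ ball x0 r, lap g x = 0) ∧
      ∀ᵐ x, x ∈ ball x0 r → g x = f x := by
  obtain ⟨η, h1, h2, h3, h4, h5, h6⟩ := exists_kernel_even d hd
  set F := (closedBall x0 (3 * r)).indicator f with hFdef
  have hF : Integrable F := by
    rwa [hFdef, integrable_indicator_iff measurableSet_closedBall]
  have hlap : ∀ ε, 0 < ε → ε < r → ∀ x ∈ ball x0 (2 * r), lap (cv F (ks η ε)) x = 0 := by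
    intro ε hε hεr x hx
    refine cv_lap_zero h hsub hf (ks_smooth h1 ε) (ks_tsupport h2 hε) ?_
    refine closedBall_subset_closedBall' ?_
    rw [mem_ball] at hx
    linarith
  have hA : ∀ ε δ, 0 < ε → ε < r → 0 < δ → δ < r → ∀ x ∈ ball x0 r,
      cv (cv F (ks η ε)) (ks η δ) x = cv F (ks η ε) x := by
    intro ε δ hε hεr hδ hδr x hx
    rw [cv_ks _ h4 hδ]
    refine h6 _ x r δ hδ hδr
      (cv_smooth hF (ks_smooth h1 ε) (ks_cs h2 hε)).contDiffOn fun y hy => ?_
    refine hlap ε hε hεr y ?_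
    rw [mem_ball] at hx hy ⊢
    linarith [dist_triangle y x x0]
  have hB : ∀ δ, 0 < δ → δ < r → ∀ x ∈ ball x0 r,
      cv F (ks η δ) x = cv F (ks η (r / 2)) x := by
    intro δ hδ hδr x hx
    rw [← hA δ (r / 2) hδ hδr (by positivity) (by linarith) x hx,
      ← hA (r / 2) δ (by positivity) (by linarith) hδ hδr x hx,
      cv_comm hF (ks_smooth h1 _).continuous (ks_cs h2 hδ) (ks_smooth h1 _).continuous
        (ks_cs h2 (by positivity))]
  have hδn : Tendsto (fun n : ℕ => r / ((n : ℝ) + 2)) atTop (𝓝 0) := by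
    have : Tendsto (fun n : ℕ => (n : ℝ) + 2) atTop atTop :=
      tendsto_atTop_add_const_right _ _ tendsto_natCast_atTop_atTop
    exact this.const_div_atTop r
  refine ⟨cv F (ks η (r / 2)), cv_smooth hF (ks_smooth h1 _) (ks_cs h2 (by positivity)),
    fun x hx => hlap _ (by positivity) (by linarith) x (ball_subset_ball (by linarith) hx), ?_⟩
  filter_upwards [cv_ae hF h1 h2 h4 h5 (δ := fun n : ℕ => r / ((n : ℝ) + 2))
    (fun n => by positivity) hδn] with x hx hxb
  have hFx : F x = f x := by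
    rw [hFdef, indicator_of_mem]
    exact ball_subset_closedBall (ball_subset_ball (by linarith) hxb)
  rw [← hFx]
  refine tendsto_nhds_unique (tendsto_const_nhds.congr fun n => ?_) hx
  refine (hB _ (by positivity) ?_ x hxb).symm
  rw [div_lt_iff₀ (by positivity)]
  have : (0 : ℝ) ≤ n := Nat.cast_nonneg n
  nlinarith

/-- **WE.** Weyl's lemma -/
theorem weyl (hd : 0 < d) {U : Set (E d)} (hU : IsOpen U) (f : E d → ℝ)
    (hf : LocallyIntegrableOn f U)
    (h : ∀ φ : E d → ℝ, ContDiff ℝ ∞ φ → HasCompactSupport φ → tsupport φ ⊆ U →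
      ∫ x, f x * lap φ x = 0) :
    ∃ g : E d → ℝ, ContDiffOn ℝ ∞ g U ∧ (∀ x ∈ U, lap g x = 0) ∧
      ∀ᵐ x ∂(volume.restrict U), g x = f x := by
  have hloc : ∀ x0 : E d, x0 ∈ U → ∃ r > 0, ∃ g : E d → ℝ, ball x0 r ⊆ U ∧ ContDiff ℝ ∞ g ∧
      (∀ x ∈ ball x0 r, lap g x = 0) ∧ ∀ᵐ x, x ∈ ball x0 r → g x = f x := by
    intro x0 hx0
    obtain ⟨R, hR, hRU⟩ := Metric.isOpen_iff.1 hU x0 hx0
    have hs : closedBall x0 (3 * (R / 4)) ⊆ U :=
      (closedBall_subset_ball (by linarith)).trans hRU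
    obtain ⟨g, hg⟩ := weyl_local hd h (r := R / 4) (by positivity) hs
      (hf.integrableOn_compact_subset hs (isCompact_closedBall _ _))
    exact ⟨R / 4, by positivity, g, (ball_subset_closedBall.trans
      (closedBall_subset_closedBall (by linarith))).trans hs, hg⟩
  choose! r hr g hgU hgs hgl hga using hloc
  -- agreement on overlaps
  have hagree : ∀ x0 ∈ U, ∀ x1 ∈ U, ∀ x ∈ ball x0 (r x0), x ∈ ball x1 (r x1) →
      g x0 x = g x1 x := by
    intro x0 h0 x1 h1 x hx0 hx1
    by_contra hne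
    have hopen : IsOpen (ball x0 (r x0) ∩ ball x1 (r x1) ∩ {y | g x0 y ≠ g x1 y}) :=
      (isOpen_ball.inter isOpen_ball).inter
        (isOpen_ne_fun (hgs x0 h0).continuous (hgs x1 h1).continuous)
    have hpos := hopen.measure_pos volume ⟨x, ⟨hx0, hx1⟩, hne⟩
    have hz : volume (ball x0 (r x0) ∩ ball x1 (r x1) ∩ {y | g x0 y ≠ g x1 y}) = 0 := by
      have hae : ∀ᵐ y, ¬ (y ∈ ball x0 (r x0) ∩ ball x1 (r x1) ∩ {y | g x0 y ≠ g x1 y}) := by
        filter_upwards [hga x0 h0, hga x1 h1] with y hy0 hy1 hy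
        exact hy.2 ((hy0 hy.1.1).trans (hy1 hy.1.2).symm)
      exact measure_eq_zero_iff_ae_notMem.2 hae
    exact hpos.ne' hz
  have hself : ∀ x ∈ U, x ∈ ball x (r x) := fun x hx => mem_ball_self (hr x hx)
  have hev : ∀ x0 ∈ U, (fun x => g x x) =ᶠ[𝓝 x0] g x0 := by
    intro x0 h0
    filter_upwards [isOpen_ball.mem_nhds (hself x0 h0)] with x hx
    have hxU := hgU x0 h0 hx
    exact hagree x hxU x0 h0 x (hself x hxU) hx
  refine ⟨fun x => g x x, ?_, ?_, ?_⟩
  · intro x0 h0
    exact ((hgs x0 h0).contDiffAt.congr_of_eventuallyEq (hev x0 h0)).contDiffWithinAt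
  · intro x0 h0
    rw [← hgl x0 h0 x0 (hself x0 h0), lap, lap]
    refine Finset.sum_congr rfl fun j _ => ?_
    have h1 : pd (bv j) (fun x => g x x) =ᶠ[𝓝 x0] pd (bv j) (g x0) := by
      have := (hev x0 h0).fderiv (𝕜 := ℝ)
      filter_upwards [this] with y hy
      rw [pd, hy]; rfl
    rw [pd, h1.fderiv_eq]; rfl
  · rw [ae_restrict_iff' hU.measurableSet, ae_iff]
    refine measure_null_of_locally_null _ fun x hx => ?_
    have hxU : x ∈ U := by
      by_contra hn
      exact hx fun h => absurd h hn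
    refine ⟨_ ∩ ball x (r x), inter_mem_nhdsWithin _ (isOpen_ball.mem_nhds (hself x hxU)), ?_⟩
    have hae : ∀ᵐ y, ¬ (y ∈ {y | ¬ (y ∈ U → g y y = f y)} ∩ ball x (r x)) := by
      filter_upwards [hga x hxU] with y hy hyy
      refine hyy.1 fun hyU => ?_
      rw [hagree y hyU x hxU y (hself y hyU) hyy.2]
      exact hy hyy.2
    exact measure_eq_zero_iff_ae_notMem.2 hae

end

end Pool.Agent.Lib_helper50.Robin
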