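import Pool.Agent.Lib_helper50.Robin.MK

/-!
# IE: interior derivative estimates for harmonic functions
-/

namespace Pool.Agent.Lib_helper50.Robin

open Pool.Agent.Lib_helper13.Robin
open MeasureTheory Set Metric Filter Topology
open scoped RealInnerProductSpace ContDiff

noncomputable section

variable {d : ℕ}

/-- convolution -/
def cv (F κ : E d → ℝ) (x : E d) : ℝ := ∫ w, F w * κ (x - w)

theorem cv_eq (F κ : E d → ℝ) :
    cv F κ = MeasureTheory.convolution F κ (ContinuousLinearMap.mul ℝ ℝ) volume := by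
  funext x
  simp [cv, MeasureTheory.convolution_def]

theorem cv_smooth {F κ : E d → ℝ} (hF : Integrable F) (hκ : ContDiff ℝ ∞ κ)
    (hc : HasCompactSupport κ) : ContDiff ℝ ∞ (cv F κ) := by
  rw [cv_eq]
  exact hc.contDiff_convolution_right _ hF.locallyIntegrable hκ

theorem pd_cs {κ : E d → ℝ} (hc : HasCompactSupport κ) (e : E d) : HasCompactSupport (pd e κ) := by
  have h := hc.fderiv (𝕜 := ℝ)
  exact h.comp_left (g := fun L : E d →L[ℝ] ℝ => L e) (by simp)

theorem pd_smooth {κ : E d → ℝ} (hκ : ContDiff ℝ ∞ κ) (e : E d) : ContDiff ℝ ∞ (pd e κ) := by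
  have := pd_contDiffOn isOpen_univ hκ.contDiffOn e
  exact contDiffOn_univ.1 this

theorem cv_pd {F κ : E d → ℝ} (hF : Integrable F) (hκ : ContDiff ℝ ∞ κ)
    (hc : HasCompactSupport κ) (e : E d) : pd e (cv F κ) = cv F (pd e κ) := by
  funext x
  have h := hc.hasFDerivAt_convolution_right (ContinuousLinearMap.mul ℝ ℝ) hF.locallyIntegrable
    (hκ.of_le (by exact_mod_cast le_top)) x (μ := volume)
  rw [← cv_eq] at h
  rw [pd, h.fderiv, MeasureTheory.convolution_precompR_apply _ hF.locallyIntegrable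
    (hc.fderiv (𝕜 := ℝ)) (hκ.continuous_fderiv (by simp)), cv_eq]
  rfl

theorem cv_bound {F κ : E d → ℝ} {M : ℝ} (hM : ∀ w, |F w| ≤ M) (hκ : Continuous κ)
    (hc : HasCompactSupport κ) (x : E d) : |cv F κ x| ≤ M * ∫ w, |κ w| := by
  have hM0 : 0 ≤ M := (abs_nonneg _).trans (hM 0)
  have hi : Integrable fun w => |κ w| := (hκ.integrable_of_hasCompactSupport hc).abs
  have hi2 : Integrable fun w => M * |κ (x - w)| := (hi.comp_sub_left x).const_mul M
  calc |cv F κ x| ≤ ∫ w, M * |κ (x - w)| := by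
        rw [cv, ← Real.norm_eq_abs]
        refine norm_integral_le_of_norm_le hi2 (Eventually.of_forall fun w => ?_)
        rw [norm_mul, Real.norm_eq_abs, Real.norm_eq_abs]
        exact mul_le_mul_of_nonneg_right (hM w) (abs_nonneg _)
    _ = M * ∫ w, |κ w| := by
        rw [integral_const_mul, integral_sub_left_eq_self (fun w => |κ w|) volume x]

/-- rescaled kernel -/
def ks (η : E d → ℝ) (t : ℝ) (u : E d) : ℝ := (t ^ d)⁻¹ * η (t⁻¹ • u)

theorem ks_smooth {η : E d → ℝ} (h : ContDiff ℝ ∞ η) (t : ℝ) : ContDiff ℝ ∞ (ks η t) :=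
  contDiff_const.mul (h.comp (contDiff_const_smul _))

theorem ks_zero {η : E d → ℝ} (h : tsupport η ⊆ closedBall 0 1) {t : ℝ} (ht : 0 < t) {u : E d}
    (hu : t < ‖u‖) : ks η t u = 0 := by
  have : η (t⁻¹ • u) = 0 := by
    by_contra hn
    have h1 := h (subset_tsupport η hn)
    rw [mem_closedBall, dist_zero_right, norm_smul, norm_inv, Real.norm_eq_abs, abs_of_pos ht,
      inv_mul_le_iff₀ ht, mul_one] at h1
    linarith
  rw [ks, this, mul_zero]

theorem ks_tsupport {η : E d → ℝ} (h : tsupport η ⊆ closedBall 0 1) {t : ℝ} (ht : 0 < t) :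
    tsupport (ks η t) ⊆ closedBall 0 t := by
  refine closure_minimal (fun z hz => ?_) isClosed_closedBall
  rw [mem_closedBall, dist_zero_right]
  by_contra hn
  exact hz (ks_zero h ht (not_le.1 hn))

theorem ks_cs {η : E d → ℝ} (h : tsupport η ⊆ closedBall 0 1) {t : ℝ} (ht : 0 < t) :
    HasCompactSupport (ks η t) :=
  (isCompact_closedBall (0 : E d) t).of_isClosed_subset (isClosed_tsupport _) (ks_tsupport h ht)

theorem ks_even {η : E d → ℝ} (h : ∀ z, η (-z) = η z) (t : ℝ) (u : E d) :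
    ks η t (-u) = ks η t u := by
  rw [ks, ks, smul_neg, h]

/-- convolution with the rescaled kernel as an average -/
theorem cv_ks (F : E d → ℝ) {η : E d → ℝ} (he : ∀ z, η (-z) = η z) {t : ℝ} (ht : 0 < t)
    (y : E d) : cv F (ks η t) y = ∫ z, F (y + t • z) * η z := by
  have h1 : cv F (ks η t) y = ∫ v, F (y + v) * ks η t v := by
    rw [cv, ← integral_add_left_eq_self (fun w => F w * ks η t (y - w)) y]
    refine integral_congr_ae (Eventually.of_forall fun v => ?_)
    beta_reduce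
    rw [show y - (y + v) = -v by abel, ks_even he]
  have h2 := Measure.integral_comp_smul (volume : Measure (E d))
    (fun v => F (y + v) * ks η t v) t
  rw [h1]
  have hfin : Module.finrank ℝ (E d) = d := by simp
  rw [hfin, abs_of_pos (by positivity), smul_eq_mul] at h2
  have h3 : ∫ v, F (y + v) * ks η t v = t ^ d * ∫ z, F (y + t • z) * ks η t (t • z) := by
    rw [h2, ← mul_assoc, mul_inv_cancel₀ (by positivity), one_mul]
  rw [h3, ← integral_const_mul]
  refine integral_congr_ae (Eventually.of_forall fun z => ?_)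
  beta_reduce
  rw [ks, smul_smul, inv_mul_cancel₀ ht.ne', one_smul]
  field_simp

theorem norm_le_sum_abs (v : E d) : ‖v‖ ≤ ∑ j, |v j| := by
  conv_lhs => rw [← (EuclideanSpace.basisFun (Fin d) ℝ).sum_repr v]
  refine (norm_sum_le _ _).trans (Finset.sum_le_sum fun j _ => ?_)
  rw [norm_smul, Real.norm_eq_abs]
  simp

theorem grad_le {f : E d → ℝ} {x : E d} : ‖gradient f x‖ ≤ ∑ j, |pd (bv j) f x| := by
  refine (norm_le_sum_abs _).trans (Finset.sum_le_sum fun j _ => le_of_eq ?_)
  congr 1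
  have h : ⟪gradient f x, bv j⟫ = fderiv ℝ f x (bv j) := by
    unfold gradient
    exact InnerProductSpace.toDual_symm_apply
  have h2 : ⟪gradient f x, bv j⟫ = (gradient f x) j := by
    generalize gradient f x = v
    rw [real_inner_comm]
    simp [bv, EuclideanSpace.inner_single_left]
  rw [pd, ← h, h2]

/-- unit version -/
theorem ie_unit (d : ℕ) (hd : 0 < d) : ∃ C > 0, ∀ (f : E d → ℝ) (M : ℝ),
    ContDiffOn ℝ ∞ f (ball 0 1) → (∀ y ∈ ball (0 : E d) 1, lap f y = 0) →
    (∀ y ∈ ball (0 : E d) 1, |f y| ≤ M) →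
    (∀ j, |pd (bv j) f 0| ≤ C * M) ∧ ∀ j k, |pd (bv k) (pd (bv j) f) 0| ≤ C * M := by
  obtain ⟨η, h1, h2, h3, h4, h5, h6⟩ := exists_kernel_even d hd
  set κ := ks η (1 / 2) with hκ
  have hκs : ContDiff ℝ ∞ κ := ks_smooth h1 _
  have hκc : HasCompactSupport κ := ks_cs h2 (by norm_num)
  set C : ℝ := (∑ j, ∫ w, |pd (bv j) κ w|) + (∑ j, ∑ k, ∫ w, |pd (bv k) (pd (bv j) κ) w|) + 1
    with hC
  have hn1 : ∀ j, 0 ≤ ∫ w, |pd (bv j) κ w| := fun j => integral_nonneg fun w => abs_nonneg _
  have hn2 : ∀ j k, 0 ≤ ∫ w, |pd (bv k) (pd (bv j) κ) w| := fun j k =>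
    integral_nonneg fun w => abs_nonneg _
  have hC1 : ∀ j, ∫ w, |pd (bv j) κ w| ≤ C := by
    intro j
    have e1 := Finset.single_le_sum (fun j _ => hn1 j) (Finset.mem_univ j)
    have e2 : 0 ≤ ∑ j, ∑ k, ∫ w, |pd (bv k) (pd (bv j) κ) w| :=
      Finset.sum_nonneg fun j _ => Finset.sum_nonneg fun k _ => hn2 j k
    linarith
  have hC2 : ∀ j k, ∫ w, |pd (bv k) (pd (bv j) κ) w| ≤ C := by
    intro j k
    have e1 := Finset.single_le_sum (fun k _ => hn2 j k) (Finset.mem_univ k)
    have e3 := Finset.single_le_sum (f := fun j => ∑ k, ∫ w, |pd (bv k) (pd (bv j) κ) w|)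
      (fun j _ => Finset.sum_nonneg fun k _ => hn2 j k) (Finset.mem_univ j)
    have e2 : 0 ≤ ∑ j, ∫ w, |pd (bv j) κ w| := Finset.sum_nonneg fun j _ => hn1 j
    linarith
  have hCpos : 0 < C := by
    have e1 : 0 ≤ ∑ j, ∫ w, |pd (bv j) κ w| := Finset.sum_nonneg fun j _ => hn1 j
    have e2 : 0 ≤ ∑ j, ∑ k, ∫ w, |pd (bv k) (pd (bv j) κ) w| :=
      Finset.sum_nonneg fun j _ => Finset.sum_nonneg fun k _ => hn2 j k
    linarith
  refine ⟨C, hCpos, fun f M hf hl hM => ?_⟩
  have hM0 : 0 ≤ M := (abs_nonneg _).trans (hM 0 (mem_ball_self one_pos))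
  set F : E d → ℝ := (closedBall (0 : E d) (3 / 4)).indicator f with hF
  have hsub : closedBall (0 : E d) (3 / 4) ⊆ ball 0 1 := closedBall_subset_ball (by norm_num)
  have hFM : ∀ w, |F w| ≤ M := by
    intro w
    by_cases hw : w ∈ closedBall (0 : E d) (3 / 4)
    · rw [hF, indicator_of_mem hw]; exact hM w (hsub hw)
    · rw [hF, indicator_of_notMem hw, abs_zero]; exact hM0
  have hFi : Integrable F := by
    rw [hF, integrable_indicator_iff measurableSet_closedBall]
    exact (hf.continuousOn.mono hsub).integrableOn_compact (isCompact_closedBall _ _)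
  have heq : f =ᶠ[𝓝 0] cv F κ := by
    filter_upwards [ball_mem_nhds (0 : E d) (show (0 : ℝ) < 1 / 4 by norm_num)] with y hy
    rw [mem_ball, dist_zero_right] at hy
    rw [hκ, cv_ks F h4 (by norm_num)]
    have hsub2 : ball y (3 / 4) ⊆ ball 0 1 := by
      refine ball_subset_ball' ?_
      rw [dist_zero_right]; linarith
    rw [← h6 f y (3 / 4) (1 / 2) (by norm_num) (by norm_num) (hf.mono hsub2)
      fun z hz => hl z (hsub2 hz)]
    refine integral_congr_ae (Eventually.of_forall fun z => ?_)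
    beta_reduce
    by_cases hz : z ∈ closedBall (0 : E d) 1
    · have : y + (1 / 2 : ℝ) • z ∈ closedBall (0 : E d) (3 / 4) := by
        rw [mem_closedBall, dist_zero_right] at hz ⊢
        calc ‖y + (1 / 2 : ℝ) • z‖ ≤ ‖y‖ + ‖(1 / 2 : ℝ) • z‖ := norm_add_le _ _
          _ ≤ 1 / 4 + 1 / 2 * 1 := by
              rw [norm_smul]
              norm_num
              linarith
          _ = 3 / 4 := by norm_num
      rw [hF, indicator_of_mem this]
    · have : η z = 0 := by
        by_contra hn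
        exact hz (h2 (subset_tsupport η hn))
      rw [this, mul_zero, mul_zero]
  have heq1 : ∀ j, pd (bv j) f =ᶠ[𝓝 0] cv F (pd (bv j) κ) := by
    intro j
    have := heq.fderiv (𝕜 := ℝ)
    filter_upwards [this] with y hy
    rw [pd, hy, ← cv_pd hFi hκs hκc]
    rfl
  have heq2 : ∀ j k, pd (bv k) (pd (bv j) f) 0 = cv F (pd (bv k) (pd (bv j) κ)) 0 := by
    intro j k
    rw [pd, (heq1 j).fderiv_eq, ← cv_pd hFi (pd_smooth hκs _) (pd_cs hκc _)]
    rfl
  constructor
  · intro j
    rw [(heq1 j).self_of_nhds]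
    refine (cv_bound hFM (pd_smooth hκs _).continuous (pd_cs hκc _) 0).trans ?_
    rw [mul_comm]
    exact mul_le_mul_of_nonneg_right (hC1 j) hM0
  · intro j k
    rw [heq2 j k]
    refine (cv_bound hFM (pd_smooth (pd_smooth hκs _) _).continuous
      (pd_cs (pd_cs hκc _) _) 0).trans ?_
    rw [mul_comm]
    exact mul_le_mul_of_nonneg_right (hC2 j k) hM0

theorem pd_scale {f : E d → ℝ} {x z : E d} {r : ℝ} (e : E d)
    (hf : DifferentiableAt ℝ f (x + r • z)) :
    pd e (fun z => f (x + r • z)) z = r * pd e f (x + r • z) := by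
  have h2 : HasFDerivAt (fun z : E d => x + r • z) (r • ContinuousLinearMap.id ℝ (E d)) z :=
    ((hasFDerivAt_id z).const_smul r).const_add x
  have h3 := hf.hasFDerivAt.comp z h2
  have h4 : fderiv ℝ (fun z => f (x + r • z)) z =
      (fderiv ℝ f (x + r • z)).comp (r • ContinuousLinearMap.id ℝ (E d)) := h3.fderiv
  rw [pd, h4]
  simp [pd]

theorem pd_const_mul {g : E d → ℝ} {z : E d} (r : ℝ) (e : E d) :
    pd e (fun z => r * g z) z = r * pd e g z := by
  have : fderiv ℝ (fun z => r * g z) z = r • fderiv ℝ g z := by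
    exact congrFun (fderiv_const_smul_field (𝕜 := ℝ) (f := g) r) z
  rw [pd, this]; rfl

/-- **IE.** interior derivative estimates -/
theorem interior_est (d : ℕ) (hd : 0 < d) : ∃ C > 0, ∀ (f : E d → ℝ) (x : E d) (r M : ℝ), 0 < r →
    ContDiffOn ℝ ∞ f (ball x r) → (∀ y ∈ ball x r, lap f y = 0) →
    (∀ y ∈ ball x r, |f y| ≤ M) →
    ‖gradient f x‖ ≤ C * M / r ∧ ∀ j k, |pd (bv k) (pd (bv j) f) x| ≤ C * M / r ^ 2 := by
  obtain ⟨C, hC, h⟩ := ie_unit d hd
  refine ⟨d * C, by positivity, fun f x r M hr hf hl hM => ?_⟩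
  have hM0 : 0 ≤ M := (abs_nonneg _).trans (hM x (mem_ball_self hr))
  have hd1 : (1 : ℝ) ≤ d := by exact_mod_cast hd
  have hmem : ∀ z ∈ ball (0 : E d) 1, x + r • z ∈ ball x r := by
    intro z hz
    rw [mem_ball, dist_zero_right] at hz
    rw [mem_ball, dist_eq_norm, add_sub_cancel_left, norm_smul, Real.norm_eq_abs, abs_of_pos hr]
    nlinarith
  have hdiff : ∀ {g : E d → ℝ}, ContDiffOn ℝ ∞ g (ball x r) → ∀ z ∈ ball (0 : E d) 1,
      DifferentiableAt ℝ g (x + r • z) := fun hg z hz =>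
    (hg.contDiffAt (isOpen_ball.mem_nhds (hmem z hz))).differentiableAt (by simp)
  have hp1 : ∀ e : E d, ∀ z ∈ ball (0 : E d) 1, pd e (fun z => f (x + r • z)) z =
      r * pd e f (x + r • z) := fun e z hz => pd_scale e (hdiff hf z hz)
  have hp2 : ∀ e e' : E d, ∀ z ∈ ball (0 : E d) 1, pd e' (pd e (fun z => f (x + r • z))) z =
      r ^ 2 * pd e' (pd e f) (x + r • z) := by
    intro e e' z hz
    have h1 : pd e (fun z => f (x + r • z)) =ᶠ[𝓝 z] fun z => r * pd e f (x + r • z) := by
      filter_upwards [isOpen_ball.mem_nhds hz] with y hy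
      exact hp1 e y hy
    rw [pd, h1.fderiv_eq]
    have h2 := pd_const_mul (g := fun z => pd e f (x + r • z)) (z := z) r e'
    rw [pd] at h2
    rw [h2, pd_scale e' (hdiff (pd_contDiffOn isOpen_ball hf e) z hz)]
    ring
  have hg : ContDiffOn ℝ ∞ (fun z => f (x + r • z)) (ball 0 1) := by
    refine hf.comp ?_ (fun z hz => hmem z hz)
    have : ContDiff ℝ ∞ (fun z : E d => x + r • z) := by fun_prop
    exact this.contDiffOn
  obtain ⟨k1, k2⟩ := h (fun z => f (x + r • z)) M hg (fun z hz => by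
    rw [lap]
    simp only [hp2 _ _ z hz]
    rw [← Finset.mul_sum]
    have := hl _ (hmem z hz)
    rw [lap] at this
    rw [this, mul_zero]) (fun z hz => hM _ (hmem z hz))
  have h0 : (0 : E d) ∈ ball (0 : E d) 1 := mem_ball_self one_pos
  constructor
  · have k3 : ∀ j, |pd (bv j) f x| ≤ C * M / r := by
      intro j
      have := k1 j
      rw [hp1 _ 0 h0, abs_mul, abs_of_pos hr] at this
      simp only [smul_zero, add_zero] at this
      rw [le_div_iff₀ hr]; linarith
    calc ‖gradient f x‖ ≤ ∑ j, |pd (bv j) f x| := grad_le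
      _ ≤ ∑ _j : Fin d, C * M / r := Finset.sum_le_sum fun j _ => k3 j
      _ = d * C * M / r := by
          rw [Finset.sum_const, Finset.card_univ, Fintype.card_fin, nsmul_eq_mul]
          ring
  · intro j k
    have := k2 j k
    rw [hp2 _ _ 0 h0, abs_mul, abs_of_pos (by positivity)] at this
    simp only [smul_zero, add_zero] at this
    rw [le_div_iff₀ (by positivity)]
    have h5 : C * M ≤ d * C * M := by
      have : 0 ≤ C * M := by positivity
      nlinarith
    linarith

end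

end Pool.Agent.Lib_helper50.Robin
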