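import Pool.Agent.Lib_helper13.Robin.Geo

/-!
# MK: a smooth radial kernel with the mean value property
-/

namespace Pool.Agent.Lib_helper50.Robin

open Pool.Agent.Lib_helper13.Robin
open MeasureTheory Set Metric Filter Topology
open scoped RealInnerProductSpace ContDiff

noncomputable section

variable {d : ℕ}

/-- profile -/
def mkpsi (s : ℝ) : ℝ := Real.smoothTransition (1 - s)

/-- antiderivative of the profile -/
def mkq (s : ℝ) : ℝ := ∫ u in s..1, mkpsi u

theorem mkpsi_smooth : ContDiff ℝ ∞ mkpsi :=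
  (Real.smoothTransition.contDiff (n := ⊤)).comp (contDiff_const.sub contDiff_id)

theorem mkpsi_nonneg (s : ℝ) : 0 ≤ mkpsi s := Real.smoothTransition.nonneg _

theorem mkpsi_zero {s : ℝ} (h : 1 ≤ s) : mkpsi s = 0 :=
  Real.smoothTransition.zero_of_nonpos (by linarith)

theorem mkpsi_pos {s : ℝ} (h : s < 1) : 0 < mkpsi s :=
  Real.smoothTransition.pos_of_pos (by linarith)

theorem mkq_deriv (s : ℝ) : HasDerivAt mkq (-mkpsi s) s := by
  have h := intervalIntegral.integral_hasDerivAt_left (f := mkpsi) (a := s) (b := 1)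
    (mkpsi_smooth.continuous.intervalIntegrable _ _)
    (mkpsi_smooth.continuous.stronglyMeasurableAtFilter _ _)
    mkpsi_smooth.continuous.continuousAt
  exact h

theorem mkq_smooth : ContDiff ℝ ∞ mkq := by
  rw [contDiff_infty_iff_deriv]
  refine ⟨fun s => (mkq_deriv s).differentiableAt, ?_⟩
  have : deriv mkq = fun s => -mkpsi s := funext fun s => (mkq_deriv s).deriv
  rw [this]
  exact mkpsi_smooth.neg

theorem mkq_zero {s : ℝ} (h : 1 ≤ s) : mkq s = 0 := by
  rw [mkq, intervalIntegral.integral_symm]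
  have : ∫ u in (1 : ℝ)..s, mkpsi u = ∫ u in (1 : ℝ)..s, (0 : ℝ) := by
    refine intervalIntegral.integral_congr fun u hu => ?_
    rw [uIcc_of_le h] at hu
    exact mkpsi_zero hu.1
  rw [this]; simp

/-- unnormalised kernel -/
def mkη0 (z : E d) : ℝ := mkpsi (‖z‖ ^ 2)

/-- its radial primitive -/
def mkP0 (z : E d) : ℝ := mkq (‖z‖ ^ 2) / 2

theorem mkη0_smooth : ContDiff ℝ ∞ (mkη0 (d := d)) :=
  mkpsi_smooth.comp (contDiff_norm_sq ℝ)

theorem mkP0_smooth : ContDiff ℝ ∞ (mkP0 (d := d)) :=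
  (mkq_smooth.comp (contDiff_norm_sq ℝ)).div_const 2

theorem mkη0_nonneg (z : E d) : 0 ≤ mkη0 z := mkpsi_nonneg _

theorem mkη0_zero {z : E d} (h : 1 ≤ ‖z‖) : mkη0 z = 0 :=
  mkpsi_zero (by nlinarith)

theorem mkP0_zero {z : E d} (h : 1 ≤ ‖z‖) : mkP0 z = 0 := by
  rw [mkP0, mkq_zero (by nlinarith), zero_div]

theorem mk_tsupport {g : E d → ℝ} (h : ∀ z : E d, 1 ≤ ‖z‖ → g z = 0) :
    tsupport g ⊆ closedBall 0 1 := by
  refine closure_minimal (fun z hz => ?_) isClosed_closedBall
  rw [mem_closedBall, dist_zero_right]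
  by_contra hn
  exact hz (h z (not_le.1 hn).le)

theorem mk_cs {g : E d → ℝ} (h : ∀ z : E d, 1 ≤ ‖z‖ → g z = 0) : HasCompactSupport g :=
  (isCompact_closedBall (0 : E d) 1).of_isClosed_subset (isClosed_tsupport g) (mk_tsupport h)

theorem mkP0_fderiv (z v : E d) : fderiv ℝ mkP0 z v = -(mkη0 z * ⟪z, v⟫) := by
  have h1 : HasFDerivAt (fun z : E d => ‖z‖ ^ 2) (2 • (innerSL ℝ z)) z :=
    (hasStrictFDerivAt_norm_sq z).hasFDerivAt
  have h2 := (mkq_deriv (‖z‖ ^ 2)).comp_hasFDerivAt z h1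
  have h4 : HasFDerivAt (mkP0 (d := d)) ((2 : ℝ)⁻¹ • (-mkpsi (‖z‖ ^ 2) • (2 • (innerSL ℝ z)))) z := by
    have := h2.const_mul (2 : ℝ)⁻¹
    refine this.congr_of_eventuallyEq (Eventually.of_forall fun y => ?_)
    simp only [mkP0, Function.comp]
    ring
  rw [h4.fderiv]
  simp only [smul_apply, innerSL_apply_apply, smul_eq_mul, mkη0, nsmul_eq_mul]
  norm_num
  ring

theorem mk_lin (L : E d →L[ℝ] ℝ) (z : E d) : L z = ∑ j, z j * L (bv j) := by
  conv_lhs => rw [← (EuclideanSpace.basisFun (Fin d) ℝ).sum_repr z]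
  rw [map_sum]
  refine Finset.sum_congr rfl fun j _ => ?_
  rw [map_smul, smul_eq_mul]
  simp

theorem mk_mem {x z : E d} {r s : ℝ} (hs : |s| < r) (hz : ‖z‖ ≤ 1) : x + s • z ∈ ball x r := by
  rw [mem_ball, dist_eq_norm, add_sub_cancel_left, norm_smul, Real.norm_eq_abs]
  calc |s| * ‖z‖ ≤ |s| * 1 := mul_le_mul_of_nonneg_left hz (abs_nonneg _)
    _ < r := by linarith

/-- products with the kernel are continuous and integrable -/
theorem mk_int {h κ : E d → ℝ} {x : E d} {r s : ℝ} (hs : |s| < r)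
    (hh : ContinuousOn h (ball x r)) (hκ : Continuous κ) (h0 : ∀ z : E d, 1 ≤ ‖z‖ → κ z = 0) :
    Integrable (fun z => h (x + s • z) * κ z) := by
  have hts := mk_tsupport h0
  have hc : Continuous fun z => h (x + s • z) * κ z := by
    refine continuous_of_tsupport fun z hz => ?_
    have hz' : z ∈ tsupport κ := tsupport_mul_subset_right hz
    have hz1 : ‖z‖ ≤ 1 := by simpa [mem_closedBall, dist_zero_right] using hts hz'
    have h1 : ContinuousAt h (x + s • z) := hh.continuousAt (isOpen_ball.mem_nhds (mk_mem hs hz1))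
    refine ContinuousAt.mul ?_ hκ.continuousAt
    exact ContinuousAt.comp (f := fun z : E d => x + s • z) h1 (by fun_prop)
  exact hc.integrable_of_hasCompactSupport (mk_cs h0).mul_left

theorem pd_contDiffOn {f : E d → ℝ} {U : Set (E d)} (hU : IsOpen U) (hf : ContDiffOn ℝ ∞ f U)
    (e : E d) : ContDiffOn ℝ ∞ (pd e f) U := by
  have h1 : ContDiffOn ℝ ∞ (fderiv ℝ f) U := hf.fderiv_of_isOpen hU le_rfl
  exact h1.clm_apply contDiffOn_const

theorem mk_parts {f : E d → ℝ} {x : E d} {r s : ℝ} (hs : |s| < r)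
    (hf : ContDiffOn ℝ ∞ f (ball x r)) (j : Fin d) :
    ∫ z, z j * pd (bv j) f (x + s • z) * mkη0 z =
      s * ∫ z, pd (bv j) (pd (bv j) f) (x + s • z) * mkP0 z := by
  have hg1 := pd_contDiffOn isOpen_ball hf (bv j)
  have hg2 := pd_contDiffOn isOpen_ball hg1 (bv j)
  have hPd : ∀ z : E d, fderiv ℝ mkP0 z (bv j) = -(mkη0 z * z j) := by
    intro z
    rw [mkP0_fderiv]
    congr 2
    rw [real_inner_comm]
    simp [bv, EuclideanSpace.inner_single_left]
  have hdiff : ∀ z : E d, ‖z‖ ≤ 1 →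
      HasFDerivAt (fun z => pd (bv j) f (x + s • z))
        (s • fderiv ℝ (pd (bv j) f) (x + s • z)) z := by
    intro z hz
    have h1 : HasFDerivAt (pd (bv j) f) (fderiv ℝ (pd (bv j) f) (x + s • z)) (x + s • z) :=
      ((hg1.contDiffAt (isOpen_ball.mem_nhds (mk_mem hs hz))).differentiableAt
        (by simp)).hasFDerivAt
    have h2 : HasFDerivAt (fun z : E d => x + s • z) (s • ContinuousLinearMap.id ℝ (E d)) z :=
      ((hasFDerivAt_id z).const_smul s).const_add x
    have h3 := h1.comp z h2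
    refine h3.congr_fderiv ?_
    ext v
    simp
  have hcongr : ∀ z : E d, fderiv ℝ (fun z => pd (bv j) f (x + s • z)) z (bv j) * mkP0 z =
      s * (pd (bv j) (pd (bv j) f) (x + s • z) * mkP0 z) := by
    intro z
    rcases le_or_gt ‖z‖ 1 with hz | hz
    · rw [(hdiff z hz).fderiv]
      simp only [smul_apply, smul_eq_mul, pd]
      ring
    · rw [mkP0_zero hz.le]; ring
  have hint1 : Integrable fun z => pd (bv j) (pd (bv j) f) (x + s • z) * mkP0 z :=
    mk_int hs hg2.continuousOn mkP0_smooth.continuous fun z => mkP0_zero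
  have hint2 : Integrable fun z => pd (bv j) f (x + s • z) * (z j * mkη0 z) :=
    mk_int hs hg1.continuousOn (by
      have := (mkη0_smooth (d := d)).continuous
      fun_prop) fun z hz => by rw [mkη0_zero hz, mul_zero]
  have hint3 : Integrable fun z => pd (bv j) f (x + s • z) * mkP0 z :=
    mk_int hs hg1.continuousOn mkP0_smooth.continuous fun z => mkP0_zero
  have key := integral_mul_fderiv_eq_neg_fderiv_mul_of_integrable (μ := (volume : Measure (E d)))
    (f := fun z => pd (bv j) f (x + s • z)) (g := mkP0) (v := bv j) ?_ ?_ hint3 ?_ ?_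
  · simp only [hcongr, hPd, integral_const_mul] at key
    have e : ∀ z : E d, z j * pd (bv j) f (x + s • z) * mkη0 z =
        -(pd (bv j) f (x + s • z) * -(mkη0 z * z j)) := fun z => by ring
    simp only [e, integral_neg, key, neg_neg]
  · simp only [hcongr]
    exact hint1.const_mul s
  · have e : ∀ z : E d, pd (bv j) f (x + s • z) * fderiv ℝ mkP0 z (bv j) =
        -(pd (bv j) f (x + s • z) * (z j * mkη0 z)) := fun z => by rw [hPd]; ring
    simp only [e]
    exact hint2.neg
  · intro z hz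
    have hz1 : ‖z‖ ≤ 1 := by
      simpa [mem_closedBall, dist_zero_right] using mk_tsupport (fun z => mkP0_zero) hz
    exact (hdiff z hz1).differentiableAt
  · intro z _
    exact (mkP0_smooth.differentiable (by simp)).differentiableAt

theorem mk_zero {f : E d → ℝ} {x : E d} {r s : ℝ} (hs : |s| < r)
    (hf : ContDiffOn ℝ ∞ f (ball x r)) (hl : ∀ y ∈ ball x r, lap f y = 0) :
    ∫ z, fderiv ℝ f (x + s • z) z * mkη0 z = 0 := by
  have e1 : ∀ z : E d, fderiv ℝ f (x + s • z) z * mkη0 z =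
      ∑ j, z j * pd (bv j) f (x + s • z) * mkη0 z := by
    intro z
    rw [mk_lin (fderiv ℝ f (x + s • z)) z, Finset.sum_mul]
    rfl
  have hint2 : ∀ j, Integrable fun z : E d => z j * pd (bv j) f (x + s • z) * mkη0 z := by
    intro j
    have := mk_int (κ := fun z : E d => z j * mkη0 z) hs
      (pd_contDiffOn isOpen_ball hf (bv j)).continuousOn (by
      have := (mkη0_smooth (d := d)).continuous
      fun_prop) fun z hz => by rw [mkη0_zero hz, mul_zero]
    refine this.congr (Eventually.of_forall fun z => ?_)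
    ring
  have hint1 : ∀ j, Integrable fun z : E d =>
      pd (bv j) (pd (bv j) f) (x + s • z) * mkP0 z := fun j =>
    mk_int hs (pd_contDiffOn isOpen_ball (pd_contDiffOn isOpen_ball hf (bv j)) (bv j)).continuousOn
      mkP0_smooth.continuous fun z => mkP0_zero
  simp only [e1]
  rw [integral_finsetSum _ fun j _ => hint2 j]
  simp only [mk_parts hs hf]
  rw [← Finset.mul_sum, ← integral_finsetSum _ fun j _ => hint1 j]
  have e2 : ∀ z : E d, ∑ j, pd (bv j) (pd (bv j) f) (x + s • z) * mkP0 z = 0 := by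
    intro z
    rw [← Finset.sum_mul]
    rcases le_or_gt ‖z‖ 1 with hz | hz
    · have := hl _ (mk_mem (x := x) hs hz)
      rw [lap] at this
      rw [this, zero_mul]
    · rw [mkP0_zero hz.le, mul_zero]
  simp [e2]

theorem mk_deriv {f : E d → ℝ} {x : E d} {r s : ℝ} (hs : |s| < r)
    (hf : ContDiffOn ℝ ∞ f (ball x r)) :
    HasDerivAt (fun s : ℝ => ∫ z, f (x + s • z) * mkη0 z)
      (∫ z, fderiv ℝ f (x + s • z) z * mkη0 z) s := by
  obtain ⟨r', hr1, hr2⟩ := exists_between hs
  have hcD : ContinuousOn (fun y => fderiv ℝ f y) (ball x r) :=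
    (hf.fderiv_of_isOpen isOpen_ball le_rfl (m := ∞)).continuousOn
  obtain ⟨C, hC⟩ := (isCompact_closedBall x r').exists_bound_of_continuousOn
    (hcD.mono (closedBall_subset_ball hr2))
  have hnb : Ioo (-r') r' ∈ 𝓝 s := Ioo_mem_nhds (by linarith [neg_abs_le s]) (by
    linarith [le_abs_self s])
  have hη := (mkη0_smooth (d := d)).continuous
  have h := hasDerivAt_integral_of_dominated_loc_of_deriv_le (𝕜 := ℝ)
    (μ := (volume : Measure (E d)))
    (F := fun (s : ℝ) (z : E d) => f (x + s • z) * mkη0 z) (x₀ := s) (s := Ioo (-r') r')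
    (F' := fun (s : ℝ) (z : E d) => fderiv ℝ f (x + s • z) z * mkη0 z)
    (bound := fun z => C * mkη0 z) hnb ?_ ?_ ?_ ?_ ?_ ?_
  · exact h.2
  · filter_upwards [hnb] with s' hs'
    exact (mk_int (by rw [abs_lt]; exact ⟨by linarith [hs'.1], by linarith [hs'.2]⟩)
      hf.continuousOn hη fun z => mkη0_zero).aestronglyMeasurable
  · exact mk_int hs hf.continuousOn hη fun z => mkη0_zero
  · have hint2 : ∀ j, Integrable fun z : E d => z j * pd (bv j) f (x + s • z) * mkη0 z := by
      intro j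
      have := mk_int (κ := fun z : E d => z j * mkη0 z) hs
        (pd_contDiffOn isOpen_ball hf (bv j)).continuousOn (by fun_prop)
        fun z hz => by rw [mkη0_zero hz, mul_zero]
      refine this.congr (Eventually.of_forall fun z => ?_)
      ring
    have e1 : ∀ z : E d, fderiv ℝ f (x + s • z) z * mkη0 z =
        ∑ j, z j * pd (bv j) f (x + s • z) * mkη0 z := by
      intro z
      rw [mk_lin (fderiv ℝ f (x + s • z)) z, Finset.sum_mul]
      rfl
    simp only [e1]
    exact (integrable_finsetSum _ fun j _ => hint2 j).aestronglyMeasurable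
  · refine Eventually.of_forall fun z s' hs' => ?_
    rcases le_or_gt ‖z‖ 1 with hz | hz
    · rw [norm_mul, Real.norm_eq_abs (mkη0 z), abs_of_nonneg (mkη0_nonneg _)]
      refine mul_le_mul_of_nonneg_right ?_ (mkpsi_nonneg _)
      have hmem : x + s' • z ∈ closedBall x r' :=
        ball_subset_closedBall (mk_mem (by rw [abs_lt]; exact ⟨hs'.1, hs'.2⟩) hz)
      calc ‖fderiv ℝ f (x + s' • z) z‖ ≤ ‖fderiv ℝ f (x + s' • z)‖ * ‖z‖ :=
            ContinuousLinearMap.le_opNorm _ _
        _ ≤ ‖fderiv ℝ f (x + s' • z)‖ * 1 := by gcongr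
        _ ≤ C := by rw [mul_one]; exact hC _ hmem
    · rw [mkη0_zero hz.le]; simp
  · exact ((hη.integrable_of_hasCompactSupport (mk_cs fun z => mkη0_zero)).const_mul C)
  · refine Eventually.of_forall fun z s' hs' => ?_
    rcases le_or_gt ‖z‖ 1 with hz | hz
    · refine HasDerivAt.mul_const ?_ _
      have hmem : x + s' • z ∈ ball x r := mk_mem (by
        rw [abs_lt]; exact ⟨by linarith [hs'.1], by linarith [hs'.2]⟩) hz
      have h1 : HasFDerivAt f (fderiv ℝ f (x + s' • z)) (x + s' • z) :=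
        ((hf.contDiffAt (isOpen_ball.mem_nhds hmem)).differentiableAt (by simp)).hasFDerivAt
      have h2 : HasDerivAt (fun s : ℝ => x + s • z) z s' := by
        have := ((hasDerivAt_id s').smul_const z).const_add x
        simpa using this
      exact h1.comp_hasDerivAt s' h2
    · simp only [mkη0_zero hz.le, mul_zero]
      exact hasDerivAt_const _ _

theorem mk_main {f : E d → ℝ} {x : E d} {r t : ℝ} (ht : 0 < t) (htr : t < r)
    (hf : ContDiffOn ℝ ∞ f (ball x r)) (hl : ∀ y ∈ ball x r, lap f y = 0) :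
    ∫ z, f (x + t • z) * mkη0 z = f x * ∫ z : E d, mkη0 z := by
  have hd : ∀ s ∈ Icc 0 t, HasDerivAt (fun s : ℝ => ∫ z, f (x + s • z) * mkη0 z) 0 s := by
    intro s hs
    have hs' : |s| < r := by rw [abs_of_nonneg hs.1]; linarith [hs.2]
    have := mk_deriv hs' hf
    rwa [mk_zero hs' hf hl] at this
  have h := constant_of_has_deriv_right_zero
    (f := fun s : ℝ => ∫ z, f (x + s • z) * mkη0 z) (a := 0) (b := t)
    (fun s hs => (hd s hs).continuousAt.continuousWithinAt)
    (fun s hs => (hd s ⟨hs.1, hs.2.le⟩).hasDerivWithinAt) t ⟨ht.le, le_rfl⟩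
  rw [h]
  simp only [zero_smul, add_zero]
  rw [integral_const_mul]

theorem mk_pos (hd : 0 < d) : 0 < ∫ z : E d, mkη0 z := by
  have hη := (mkη0_smooth (d := d)).continuous
  rw [integral_pos_iff_support_of_nonneg (fun z => mkη0_nonneg _)
    (hη.integrable_of_hasCompactSupport (mk_cs fun z => mkη0_zero))]
  have hsub : ball (0 : E d) 1 ⊆ Function.support (mkη0 (d := d)) := by
    intro z hz
    rw [mem_ball, dist_zero_right] at hz
    refine (mkpsi_pos ?_).ne'
    nlinarith [norm_nonneg z]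
  exact (measure_ball_pos volume (0 : E d) one_pos).trans_le (measure_mono hsub)

/-- strengthened version: the kernel is even -/
theorem exists_kernel_even (d : ℕ) (hd : 0 < d) : ∃ η : E d → ℝ, ContDiff ℝ ∞ η ∧
    tsupport η ⊆ closedBall 0 1 ∧ (∀ z, 0 ≤ η z) ∧ (∀ z, η (-z) = η z) ∧ ∫ z, η z = 1 ∧
    ∀ (f : E d → ℝ) (x : E d) (r t : ℝ), 0 < t → t < r → ContDiffOn ℝ ∞ f (ball x r) →
      (∀ y ∈ ball x r, lap f y = 0) → ∫ z, f (x + t • z) * η z = f x := by
  have hp := mk_pos hd
  refine ⟨fun z => (∫ z : E d, mkη0 z)⁻¹ * mkη0 z, contDiff_const.mul mkη0_smooth,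
    mk_tsupport fun z hz => by rw [mkη0_zero hz, mul_zero],
    fun z => mul_nonneg (inv_nonneg.2 hp.le) (mkpsi_nonneg _), fun z => ?_, ?_, ?_⟩
  · simp only [mkη0, norm_neg]
  · rw [integral_const_mul, inv_mul_cancel₀ hp.ne']
  · intro f x r t ht htr hf hl
    have h := mk_main ht htr hf hl
    have e : ∀ z : E d, f (x + t • z) * ((∫ z : E d, mkη0 z)⁻¹ * mkη0 z) =
        (∫ z : E d, mkη0 z)⁻¹ * (f (x + t • z) * mkη0 z) := fun z => by ring
    simp only [e]
    rw [integral_const_mul, h]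
    field_simp

/-- **MK.** -/
theorem exists_kernel (d : ℕ) (hd : 0 < d) : ∃ η : E d → ℝ, ContDiff ℝ ∞ η ∧
    tsupport η ⊆ closedBall 0 1 ∧ (∀ z, 0 ≤ η z) ∧ ∫ z, η z = 1 ∧
    ∀ (f : E d → ℝ) (x : E d) (r t : ℝ), 0 < t → t < r → ContDiffOn ℝ ∞ f (ball x r) →
      (∀ y ∈ ball x r, lap f y = 0) → ∫ z, f (x + t • z) * η z = f x := by
  obtain ⟨η, h1, h2, h3, -, h5, h6⟩ := exists_kernel_even d hd
  exact ⟨η, h1, h2, h3, h5, h6⟩

end

end Pool.Agent.Lib_helper50.Robin
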